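import Mathlib
import Pool.Agent.W926.PS.Stm

open Classical

namespace Pool.Agent.W121.PS
open W926.PS

theorem exL {α : Type} [Fintype α] (Q R q T : ℕ) (pos lev : ℕ → α → ℕ) (l : ℕ) (x : α) :
    ∃ t, t = T ∨ Cond Q R q T pos lev l x t := ⟨T, Or.inl rfl⟩

/-- the levels -/
noncomputable def L {α : Type} [Fintype α] (Q R q T : ℕ) (pos : ℕ → α → ℕ) (l : ℕ) : α → ℕ :=
  fun x => Nat.find (exL Q R q T pos (fun i => if _h : i < l then L Q R q T pos i else fun _ => 0)
    l x)
termination_by l

theorem cond_congr {α : Type} [Fintype α] (Q R q T : ℕ) (pos lev lev' : ℕ → α → ℕ) (l : ℕ) (x : α)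
    (t : ℕ) (h : ∀ i < l, lev i = lev' i) (hc : Cond Q R q T pos lev l x t) :
    Cond Q R q T pos lev' l x t := by
  intro E h1 h2 h3
  have h4 := hc E h1 h2 (fun i hi => by rw [h i (h1 i hi)]; exact h3 i hi)
  refine le_trans (le_of_eq ?_) h4
  congr 2
  ext y
  simp only [Finset.mem_filter, Finset.mem_univ, true_and]
  refine and_congr_left fun _ => ?_
  refine forall₂_congr fun i hi => ?_
  rw [h i (h1 i hi)]

theorem lev : S_LEV := by
  intro α _ Q R q T pos
  refine ⟨L Q R q T pos, ?_⟩
  have hag : ∀ l, ∀ i < l, (if _h : i < l then L Q R q T pos i else fun _ => 0) =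
      L Q R q T pos i := by
    intro l i hi
    rw [dif_pos hi]
  refine ⟨?_, ?_, ?_⟩
  · intro l x
    rw [L]
    exact Nat.find_min' _ (Or.inl rfl)
  · intro l x hlt
    have h := Nat.find_spec (exL Q R q T pos
      (fun i => if _h : i < l then L Q R q T pos i else fun _ => 0) l x)
    have e : L Q R q T pos l x = Nat.find (exL Q R q T pos
      (fun i => if _h : i < l then L Q R q T pos i else fun _ => 0) l x) := by
      conv_lhs => rw [L]
    rw [← e] at h
    rcases h with h | h
    · omega
    · exact cond_congr Q R q T pos _ _ l x _ (hag l) h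
  · intro l x t ht hc
    have e : L Q R q T pos l x = Nat.find (exL Q R q T pos
      (fun i => if _h : i < l then L Q R q T pos i else fun _ => 0) l x) := by
      conv_lhs => rw [L]
    rw [e] at ht
    refine Nat.find_min _ ht (Or.inr ?_)
    exact cond_congr Q R q T pos _ _ l x _ (fun i hi => (hag l i hi).symm) hc

end Pool.Agent.W121.PS
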