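import Mathlib
import Pool.Agent.W926.PS.Stm

open Classical

namespace Pool.Agent.W121.PS
open W926.PS

theorem polyexp (A k : ℕ) : ∃ m0 : ℕ, ∀ m ≥ m0, A * (m + 1) ^ k < 2 ^ m := by
  have h := tendsto_pow_const_div_const_pow_of_one_lt k (r := (2 : ℝ)) (by norm_num)
  have hpos : (0 : ℝ) < 1 / (2 * ((A : ℝ) + 1)) := by positivity
  have h2 := h.eventually (gt_mem_nhds hpos)
  obtain ⟨m0, hm0⟩ := Filter.eventually_atTop.1 h2
  refine ⟨m0, fun m hm => ?_⟩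
  have h3 := hm0 (m + 1) (by omega)
  rw [div_lt_div_iff₀ (by positivity) (by positivity)] at h3
  have h4 : ((m + 1 : ℕ) : ℝ) ^ k * (2 * ((A : ℝ) + 1)) < 1 * (2 : ℝ) ^ (m + 1) := h3
  have h5 : (A : ℝ) * ((m + 1 : ℕ) : ℝ) ^ k < 2 ^ m := by
    have h6 : (0 : ℝ) ≤ ((m + 1 : ℕ) : ℝ) ^ k := by positivity
    rw [pow_succ (2 : ℝ) m] at h4
    nlinarith
  exact_mod_cast h5

theorem numl : S_NUML := by
  intro C
  rcases Nat.eq_zero_or_pos C with hC | hC
  · subst hC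
    refine ⟨1, one_pos, fun N => ⟨1, fun m hm b h => ?_⟩⟩
    omega
  · set D : ℕ := 3 * C with hD
    have hD0 : D ≠ 0 := by omega
    obtain ⟨T0, hT0⟩ := polyexp (4 ^ D) D
    set T : ℕ := max T0 1 with hT
    have hT1 : 0 < T := lt_of_lt_of_le one_pos (le_max_right _ _)
    have hTT : (4 * (T + 1)) ^ D ≤ 2 ^ T := by
      rw [mul_pow]
      exact (hT0 T (le_max_left _ _)).le
    refine ⟨T, hT1, fun N => ?_⟩
    obtain ⟨m1, h1⟩ := polyexp ((4 * (1 + T)) ^ D) (T * D)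
    obtain ⟨m2, h2⟩ := polyexp (2 * 2 ^ T * N ^ T) T
    refine ⟨max (max m1 m2) (T + 1), fun m hm b hb => ?_⟩
    have hm1 : m1 ≤ m := ((le_max_left _ _).trans (le_max_left _ _)).trans hm
    have hm2 : m2 ≤ m := ((le_max_right _ _).trans (le_max_left _ _)).trans hm
    have hm3 : T + 1 ≤ m := (le_max_right _ _).trans hm
    refine ⟨by omega, ?_, ?_⟩
    · have k1 := h1 m hm1
      have k2 : 4 * ((1 + T) * (m + 1) ^ T) ≤ 2 ^ (b + 1) := by
        refine (Nat.pow_le_pow_iff_left hD0).1 ?_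
        calc (4 * ((1 + T) * (m + 1) ^ T)) ^ D = (4 * (1 + T)) ^ D * (m + 1) ^ (T * D) := by
              rw [← mul_assoc, mul_pow, ← pow_mul]
          _ ≤ 2 ^ m := k1.le
          _ ≤ 2 ^ (D * (b + 1)) := Nat.pow_le_pow_right (by norm_num) hb
          _ = (2 ^ (b + 1)) ^ D := by rw [← pow_mul, mul_comm]
      have k3 : 2 * (1 + T * (m + 1) ^ (T - 1)) ≤ 2 ^ b := by
        have k4 : (m + 1) ^ (T - 1) ≤ (m + 1) ^ T :=
          Nat.pow_le_pow_right (by omega) (by omega)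
        have k5 : 1 ≤ (m + 1) ^ T := Nat.one_le_pow _ _ (by omega)
        have k6 : T * (m + 1) ^ (T - 1) ≤ T * (m + 1) ^ T := Nat.mul_le_mul_left _ k4
        rw [pow_succ] at k2
        nlinarith
      have k7 : 2 * (1 + T * (m + 1) ^ (T - 1) * (2 ^ b) ^ 2) ≤ (2 ^ b) ^ 3 := by
        have k8 : 1 ≤ (2 ^ b) ^ 2 := Nat.one_le_pow _ _ (by positivity)
        calc 2 * (1 + T * (m + 1) ^ (T - 1) * (2 ^ b) ^ 2)
            ≤ (2 * (1 + T * (m + 1) ^ (T - 1))) * (2 ^ b) ^ 2 := by nlinarith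
          _ ≤ 2 ^ b * (2 ^ b) ^ 2 := Nat.mul_le_mul_right _ k3
          _ = (2 ^ b) ^ 3 := by ring
      have hm0 : m ≠ 0 := by omega
      calc 2 * (1 + T * (m + 1) ^ (T - 1) * (2 ^ b) ^ 2) ^ m
          ≤ 2 ^ m * (1 + T * (m + 1) ^ (T - 1) * (2 ^ b) ^ 2) ^ m := by
            refine Nat.mul_le_mul_right _ ?_
            exact Nat.le_self_pow hm0 2
        _ = (2 * (1 + T * (m + 1) ^ (T - 1) * (2 ^ b) ^ 2)) ^ m := by rw [mul_pow]
        _ ≤ ((2 ^ b) ^ 3) ^ m := Nat.pow_le_pow_left k7 m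
        _ = (2 ^ b) ^ (3 * m) := by rw [← pow_mul]
    · have k1 := h2 m hm2
      have k2 : (4 * (T + 1)) ^ m ≤ 2 ^ ((b + 1) * T) := by
        refine (Nat.pow_le_pow_iff_left hD0).1 ?_
        calc ((4 * (T + 1)) ^ m) ^ D = ((4 * (T + 1)) ^ D) ^ m := by
              rw [← pow_mul, ← pow_mul, mul_comm m D]
          _ ≤ (2 ^ T) ^ m := Nat.pow_le_pow_left hTT m
          _ = 2 ^ (m * T) := by rw [← pow_mul, mul_comm]
          _ ≤ 2 ^ (D * (b + 1) * T) :=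
            Nat.pow_le_pow_right (by norm_num) (Nat.mul_le_mul_right _ hb)
          _ = (2 ^ ((b + 1) * T)) ^ D := by
            rw [← pow_mul]; congr 1; ring
      have k3 : (4 * (T + 1)) ^ m = 2 ^ m * (2 * (T + 1)) ^ m := by
        rw [← mul_pow]; congr 1; ring
      have k4 : 2 * 2 ^ T * (m * N) ^ T < 2 ^ m := by
        refine lt_of_le_of_lt ?_ k1
        rw [mul_pow, mul_assoc (2 * 2 ^ T), mul_comm (m ^ T)]
        refine Nat.mul_le_mul_left _ (Nat.mul_le_mul_left _ ?_)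
        exact Nat.pow_le_pow_left (by omega) T
      have k5 : (0 : ℕ) < (2 * (T + 1)) ^ m := by positivity
      have k6 : (2 * (T + 1)) ^ m * (2 * 2 ^ T * (m * N) ^ T) < (2 * (T + 1)) ^ m * 2 ^ m :=
        Nat.mul_lt_mul_of_pos_left k4 k5
      have k7 : 2 ^ T * (2 * (2 * (T + 1)) ^ m * (m * N) ^ T) < 2 ^ T * (2 ^ b) ^ T := by
        calc 2 ^ T * (2 * (2 * (T + 1)) ^ m * (m * N) ^ T)
            = (2 * (T + 1)) ^ m * (2 * 2 ^ T * (m * N) ^ T) := by ring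
          _ < (2 * (T + 1)) ^ m * 2 ^ m := k6
          _ = (4 * (T + 1)) ^ m := by rw [k3, mul_comm]
          _ ≤ 2 ^ ((b + 1) * T) := k2
          _ = 2 ^ T * (2 ^ b) ^ T := by rw [← pow_mul, ← pow_add]; congr 1; ring
      exact Nat.lt_of_mul_lt_mul_left k7

end Pool.Agent.W121.PS
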